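import Pool.Agent.Y790.TG.Fin
import Pool.Agent.Y790.TG.Sem

/-!
# For every `k` all but finitely many trees with at most `k` leaves are super edge-magic

The trees with at most `k` leaves and sufficiently many vertices have an `α`-labelling
(`Pool.Agent.Y790.TG.allTreeG`, the construction is described in `MP_5799c5_co/FewLeaves`), and a tree with an
`α`-labelling is super edge-magic.
-/

set_option autoImplicit false

namespace Pool.Agent.Results.MP_138ac9_co.FewLeaves

/-- For every `k` there is `N` such that every finite tree `T` with at most `k` leaves (vertices of degree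
one) and at least `N` vertices is super edge-magic: there is an injective map `F` of the vertices and edges
onto `{1, …, |V| + |E|}` with `F v ≤ |V|` for the vertices `v`, and a constant `c` with
`F u + F (u v) + F v = c` for every edge `u v`. -/
theorem result (k : ℕ) : ∃ N : ℕ, 2 ≤ N ∧ ∀ (V : Type) [Fintype V] (T : SimpleGraph V), T.IsTree →
    {x : V | (T.neighborSet x).ncard = 1}.ncard ≤ k → N ≤ Fintype.card V →
    ∃ (F : V ⊕ T.edgeSet → ℕ) (c : ℕ), Function.Injective F ∧
      Set.range F = Set.Icc 1 (Fintype.card V + Nat.card T.edgeSet) ∧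
      (∀ v : V, F (Sum.inl v) ≤ Fintype.card V) ∧
      ∀ (e : T.edgeSet) (u v : V), e.val = s(u, v) →
        F (Sum.inl u) + F (Sum.inr e) + F (Sum.inl v) = c := by
  obtain ⟨N, hN⟩ := Pool.Agent.Y790.TG.allTreeG k
  exact ⟨max 2 N, le_max_left _ _, fun V _ T hT hk hV => Pool.Agent.Y790.TG.sem V T hT
    ((le_max_left _ _).trans hV) (hN V T hT hk ((le_max_right _ _).trans hV))⟩

end Pool.Agent.Results.MP_138ac9_co.FewLeaves
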